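import Pool.Agent.Y622.NG.Kernel

set_option autoImplicit false

/-!
The inner product gadget: correlations under mixing, and the size of its fibres.
-/

namespace Pool.Agent.Y622.NG

open Finset

/-- the sign of a bit -/
def sgn (b : Bool) : ℝ := if b then -1 else 1

theorem sgn_xor (a b : Bool) : sgn (xor a b) = sgn a * sgn b := by
  cases a <;> cases b <;> simp [sgn]

theorem sgn_sq (a : Bool) : sgn a * sgn a = 1 := by cases a <;> simp [sgn]

theorem abs_sgn (a : Bool) : |sgn a| = 1 := by cases a <;> simp [sgn]

/-- the inner product modulo two of the first and the second bits of `b` pairs of bits -/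
def ip {b : ℕ} (v : Fin b → Bool → Bool) : Bool :=
  decide (Odd (univ.filter fun j => (v j false && v j true) = true).card)

theorem sgn_ip {b : ℕ} (v : Fin b → Bool → Bool) :
    sgn (ip v) = ∏ j, sgn (v j false && v j true) := by
  have h : ∏ j, sgn (v j false && v j true) =
      (-1) ^ (univ.filter fun j => (v j false && v j true) = true).card := by
    unfold sgn
    rw [Finset.prod_ite]
    simp
  rw [h]
  unfold ip sgn
  by_cases ho : Odd (univ.filter fun j => (v j false && v j true) = true).card
  · rw [decide_eq_true ho, ho.neg_one_pow]; simp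
  · rw [decide_eq_false ho, (Nat.not_odd_iff_even.1 ho).neg_one_pow]; simp

theorem sum_pair {M : Type*} [AddCommMonoid M] (f : (Bool → Bool) → M) :
    ∑ a, f a = ∑ a0 : Bool, ∑ a1 : Bool, f (fun e => cond e a1 a0) := by
  rw [← Fintype.sum_prod_type' (f := fun a0 a1 : Bool => f (fun e => cond e a1 a0))]
  refine Fintype.sum_equiv (Equiv.boolArrowEquivProd Bool) _ _ ?_
  intro a
  congr 1
  funext e
  cases e <;> rfl

/-- mixing two assignments: the coordinates where `s` holds are taken from the first one -/
def mx {V : Type*} (s a c : V → Bool) : V → Bool := fun e => if s e then a e else c e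

/-- pair kernel -/
def kp (s a c : Bool → Bool) : ℝ := sgn (mx s a c false && mx s a c true)

theorem kp_row (s c : Bool → Bool) :
    ∑ c', |∑ a, kp s a c * kp s a c'| ≤ if s false ≠ s true then 8 else 16 := by
  simp only [sum_pair, Fintype.sum_bool, kp, mx, cond_true, cond_false]
  cases h0 : s false <;> cases h1 : s true <;> cases h2 : c false <;> cases h3 : c true <;>
    simp [sgn] <;> norm_num

/-- block kernel -/
def kb {b : ℕ} (s a c : Fin b → Bool → Bool) : ℝ := ∏ j, kp (s j) (a j) (c j)

theorem kb_eq {b : ℕ} (s a c : Fin b → Bool → Bool) :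
    kb s a c = sgn (ip fun j => mx (s j) (a j) (c j)) := by
  rw [sgn_ip]; rfl

/-- the number of split pairs -/
def split {b : ℕ} (s : Fin b → Bool → Bool) : ℕ := (univ.filter fun j => s j false ≠ s j true).card

theorem kb_row {b : ℕ} (s c : Fin b → Bool → Bool) :
    (∑ c', |∑ a, kb s a c * kb s a c'|) * 2 ^ split s ≤ 16 ^ b := by
  have h := row_prod (fun j a c => kp (s j) a c)
    (fun j => if s j false ≠ s j true then 8 else 16) (fun j c => kp_row (s j) c) c
  have h2 : (∏ j : Fin b, (if s j false ≠ s j true then (8 : ℝ) else 16)) * 2 ^ split s = 16 ^ b := by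
    have e : (2 : ℝ) ^ split s = ∏ j : Fin b, (if s j false ≠ s j true then (2 : ℝ) else 1) := by
      rw [Finset.prod_ite]; simp [split]
    rw [e, ← prod_mul_distrib]
    have : ∀ j : Fin b, (if s j false ≠ s j true then (8 : ℝ) else 16) *
        (if s j false ≠ s j true then (2 : ℝ) else 1) = 16 := by
      intro j; split_ifs <;> norm_num
    rw [prod_congr rfl fun j _ => this j]
    simp
  rw [← h2]
  exact mul_le_mul_of_nonneg_right h (by positivity)

theorem sum_sgn_ip (b : ℕ) : ∑ v : Fin b → Bool → Bool, sgn (ip v) = 2 ^ b := by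
  simp_rw [sgn_ip]
  have e : ∑ v : Fin b → Bool → Bool, ∏ j, sgn (v j false && v j true) =
      ∏ _j : Fin b, ∑ w : Bool → Bool, sgn (w false && w true) := by
    rw [Finset.prod_univ_sum]
    simp only [Fintype.piFinset_univ]
  rw [e]
  have : ∑ w : Bool → Bool, sgn (w false && w true) = 2 := by
    simp only [sum_pair, Fintype.sum_bool, cond_true, cond_false, sgn]
    simp; norm_num
  rw [this]; simp

/-- the fibres of the gadget -/
def fib (b : ℕ) (c : Bool) : Finset (Fin b → Bool → Bool) := univ.filter fun v => ip v = c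

theorem fib_card {b : ℕ} (hb : 1 ≤ b) (c : Bool) : (4 : ℝ) ^ b ≤ 4 * (fib b c).card := by
  have h1 : (∑ v : Fin b → Bool → Bool, (1 : ℝ)) = 4 ^ b := by
    simp
  have h2 := sum_sgn_ip b
  have h3 : ((fib b c).card : ℝ) = ∑ v : Fin b → Bool → Bool, (1 + sgn c * sgn (ip v)) / 2 := by
    unfold fib
    rw [Finset.card_filter]
    push_cast
    refine sum_congr rfl fun v _ => ?_
    cases c <;> cases ip v <;> simp [sgn]
  have h4 : ((fib b c).card : ℝ) = (4 ^ b + sgn c * 2 ^ b) / 2 := by
    rw [h3, ← Finset.sum_div, Finset.sum_add_distrib, ← Finset.mul_sum, h2, h1]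
  rw [h4]
  have h5 : (2 : ℝ) * 2 ^ b ≤ 4 ^ b := by
    have : (4 : ℝ) ^ b = 2 ^ b * 2 ^ b := by rw [← mul_pow]; norm_num
    rw [this]
    refine mul_le_mul_of_nonneg_right ?_ (by positivity)
    calc (2 : ℝ) = 2 ^ 1 := by norm_num
      _ ≤ 2 ^ b := pow_le_pow_right₀ (by norm_num) hb
  have h6 : (0 : ℝ) < 2 ^ b := by positivity
  cases c <;> simp [sgn] <;> linarith

end Pool.Agent.Y622.NG
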