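import Pool.Agent.Y622.NG.Defs
import Pool.Agent.Y622.NG.Pair

set_option autoImplicit false

/-!
The accepted inputs of a DNNF are covered by few balanced rectangles.
-/

namespace Pool.Agent.Y622.NG

open Finset

variable {n s w : ℕ} (C : Dnnf n s w)

theorem Dnnf.dep (i : Fin s) : ∀ x y : Fin n → Bool, (∀ k ∈ C.scope i, x k = y k) →
    C.val i x = C.val i y := by
  induction' h : i.val using Nat.strong_induction_on with N ih generalizing i
  intro x y hxy
  cases hk : C.kind i with
  | leaf => exact (C.leaf_ok i hk).2 x y hxy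
  | and a b =>
    obtain ⟨ha, hb, hs, -, hv⟩ := C.and_ok i a b hk
    rw [hv x, hv y, ih a.val (by omega) a rfl x y (fun k hk => hxy k (by rw [hs]; exact Finset.mem_union_left _ hk)),
      ih b.val (by omega) b rfl x y (fun k hk => hxy k (by rw [hs]; exact Finset.mem_union_right _ hk))]
  | or a b =>
    obtain ⟨ha, hb, hs, hv⟩ := C.or_ok i a b hk
    rw [hv x, hv y, ih a.val (by omega) a rfl x y (fun k hk => hxy k (by rw [hs]; exact Finset.mem_union_left _ hk)),
      ih b.val (by omega) b rfl x y (fun k hk => hxy k (by rw [hs]; exact Finset.mem_union_right _ hk))]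

/-- mixing along a set of variables -/
def mxs (T : Finset (Fin n)) (x y : Fin n → Bool) : Fin n → Bool := mx (fun i => decide (i ∈ T)) x y

theorem mxs_mem {T : Finset (Fin n)} {x y : Fin n → Bool} {i : Fin n} (h : i ∈ T) :
    mxs T x y i = x i := by simp [mxs, mx, h]

theorem mxs_not_mem {T : Finset (Fin n)} {x y : Fin n → Bool} {i : Fin n} (h : i ∉ T) :
    mxs T x y i = y i := by simp [mxs, mx, h]

theorem mxs_self (T : Finset (Fin n)) (x : Fin n → Bool) : mxs T x x = x := by
  funext i; by_cases h : i ∈ T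
  · rw [mxs_mem h]
  · rw [mxs_not_mem h]

/-- `x` is a context of the gate `v` -/
def Ctx (out v : Fin s) (x : Fin n → Bool) : Prop :=
  ∀ y, C.val v y = true → C.val out (mxs (C.scope v) y x) = true

/-- a child of a disjunction -/
def ch (v : Fin s) (β : Bool) : Fin s :=
  match C.kind v with
  | .or a b => if β then a else b
  | _ => v

/-- `v` is a disjunction -/
def IsOr (v : Fin s) : Prop := ∃ a b, C.kind v = .or a b

theorem ch_prop {v : Fin s} (hv : IsOr C v) (β : Bool) :
    ch C v β < v ∧ C.scope (ch C v β) ⊆ C.scope v ∧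
      ∀ x, C.val (ch C v β) x = true → C.val v x = true := by
  obtain ⟨a, b, hk⟩ := hv
  obtain ⟨ha, hb, hs, hval⟩ := C.or_ok v a b hk
  unfold ch
  rw [hk]
  cases β
  · simp only [Bool.false_eq_true, if_false]
    refine ⟨hb, by rw [hs]; exact subset_union_right, fun x hx => by rw [hval, hx]; simp⟩
  · simp only [if_true]
    refine ⟨ha, by rw [hs]; exact subset_union_left, fun x hx => by rw [hval, hx]; simp⟩

theorem ch_ex {v : Fin s} (hv : IsOr C v) {x : Fin n → Bool} (hx : C.val v x = true) :
    ∃ β, C.val (ch C v β) x = true := by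
  obtain ⟨a, b, hk⟩ := hv
  obtain ⟨ha, hb, hs, hval⟩ := C.or_ok v a b hk
  rw [hval, Bool.or_eq_true] at hx
  unfold ch
  rw [hk]
  rcases hx with hx | hx
  · exact ⟨true, by simpa using hx⟩
  · exact ⟨false, by simpa using hx⟩

theorem ctx_child {out v : Fin s} (hv : IsOr C v) (β : Bool) {x : Fin n → Bool}
    (hx : Ctx C out v x) : Ctx C out (ch C v β) x := by
  obtain ⟨-, hsub, himp⟩ := ch_prop C hv β
  intro y hy
  have h1 : C.val (ch C v β) (mxs (C.scope (ch C v β)) y x) = true := by
    rw [← hy]
    exact C.dep _ _ _ fun k hk => mxs_mem hk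
  have h2 := hx _ (himp _ h1)
  have h3 : mxs (C.scope v) (mxs (C.scope (ch C v β)) y x) x = mxs (C.scope (ch C v β)) y x := by
    funext k
    by_cases hk : k ∈ C.scope v
    · rw [mxs_mem hk]
    · rw [mxs_not_mem hk, mxs_not_mem (fun h => hk (hsub h))]
  rwa [h3] at h2

theorem ctx_and {out v a b : Fin s} (hk : C.kind v = .and a b) {x : Fin n → Bool}
    (hctx : Ctx C out v x) (hx : C.val v x = true) : Ctx C out a x ∧ Ctx C out b x := by
  obtain ⟨ha, hb, hs, hd, hval⟩ := C.and_ok v a b hk
  rw [hval, Bool.and_eq_true] at hx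
  have key : ∀ p q : Fin s, C.scope v = C.scope p ∪ C.scope q →
      Disjoint (C.scope p) (C.scope q) → (∀ y, C.val v y = (C.val p y && C.val q y)) →
      C.val q x = true → Ctx C out p x := by
    intro p q hpq hdd hvv hq y hy
    have h1 : C.val v (mxs (C.scope p) y x) = true := by
      rw [hvv, Bool.and_eq_true]
      constructor
      · rw [← hy]; exact C.dep _ _ _ fun k hk => mxs_mem hk
      · rw [← hq]; exact C.dep _ _ _ fun k hk => mxs_not_mem (fun h => (disjoint_left.1 hdd) h hk)
    have h2 := hctx _ h1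
    have h3 : mxs (C.scope v) (mxs (C.scope p) y x) x = mxs (C.scope p) y x := by
      funext k
      by_cases hk : k ∈ C.scope v
      · rw [mxs_mem hk]
      · rw [mxs_not_mem hk, mxs_not_mem (fun h => hk (by rw [hpq]; exact mem_union_left _ h))]
    rwa [h3] at h2
  exact ⟨key a b hs hd hval hx.2, key b a (by rw [hs, union_comm]) hd.symm
    (fun y => by rw [hval, Bool.and_comm]) hx.1⟩

open Classical in
/-- the rectangle of a small root -/
noncomputable def r0 (out : Fin s) : Finset (Fin n → Bool) :=
  if 3 * (C.scope out).card < n then univ.filter fun x => C.val out x = true else ∅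

open Classical in
/-- the rectangle of a balanced gate -/
noncomputable def r1 (out v : Fin s) : Finset (Fin n → Bool) :=
  if n ≤ 3 * (C.scope v).card ∧ 3 * (C.scope v).card ≤ 2 * n then
    univ.filter fun x => Ctx C out v x ∧ C.val v x = true else ∅

open Classical in
/-- the rectangle of a small child of a large disjunction -/
noncomputable def r2 (out v : Fin s) (β : Bool) : Finset (Fin n → Bool) :=
  if IsOr C v ∧ 2 * n < 3 * (C.scope v).card ∧ 3 * (C.scope (ch C v β)).card < n then
    univ.filter fun x => Ctx C out v x ∧ C.val (ch C v β) x = true else ∅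

/-- the rectangles -/
noncomputable def rset (out : Fin s) : Option (Fin s × Option Bool) → Finset (Fin n → Bool)
  | none => r0 C out
  | some (v, none) => r1 C out v
  | some (v, some β) => r2 C out v β

theorem rset_cover (hw : 3 * w ≤ n) (out : Fin s) (x : Fin n → Bool) (v : Fin s) :
    2 * n < 3 * (C.scope v).card → Ctx C out v x → C.val v x = true →
      ∃ o, x ∈ rset C out o := by
  classical
  induction' h : v.val using Nat.strong_induction_on with N ih generalizing v
  intro hbig hctx hx
  -- a child that is large enough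
  have key : ∀ c : Fin s, c < v → n ≤ 3 * (C.scope c).card → Ctx C out c x →
      C.val c x = true → ∃ o, x ∈ rset C out o := by
    intro c hc hlarge hcc hcx
    by_cases hb : 2 * n < 3 * (C.scope c).card
    · exact ih c.val (by omega) c rfl hb hcc hcx
    · refine ⟨some (c, none), ?_⟩
      change x ∈ r1 C out c
      unfold r1
      rw [if_pos ⟨hlarge, not_lt.1 hb⟩, mem_filter]
      exact ⟨mem_univ _, hcc, hcx⟩
  cases hk : C.kind v with
  | leaf =>
    have := (C.leaf_ok v hk).1
    omega
  | and a b =>
    obtain ⟨ha, hb, hs, hd, hval⟩ := C.and_ok v a b hk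
    obtain ⟨h1, h2⟩ := ctx_and C hk hctx hx
    rw [hval, Bool.and_eq_true] at hx
    rw [hs, card_union_of_disjoint hd] at hbig
    by_cases hc : n ≤ 3 * (C.scope a).card
    · exact key a ha hc h1 hx.1
    · exact key b hb (by omega) h2 hx.2
  | or a b =>
    have hor : IsOr C v := ⟨a, b, hk⟩
    obtain ⟨β, hβ⟩ := ch_ex C hor hx
    obtain ⟨hlt, hsub, himp⟩ := ch_prop C hor β
    by_cases hc : n ≤ 3 * (C.scope (ch C v β)).card
    · exact key _ hlt hc (ctx_child C hor β hctx) hβ
    · refine ⟨some (v, some β), ?_⟩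
      change x ∈ r2 C out v β
      unfold r2
      rw [if_pos ⟨hor, hbig, not_le.1 hc⟩, mem_filter]
      exact ⟨mem_univ _, hctx, hβ⟩

theorem rset_rect (hn : 2 ≤ n) (out : Fin s) (o : Option (Fin s × Option Bool)) :
    rset C out o = ∅ ∨ ∃ T : Finset (Fin n), n ≤ 3 * T.card ∧ 3 * T.card ≤ 2 * n ∧
      (∀ x ∈ rset C out o, ∀ y ∈ rset C out o, mxs T x y ∈ rset C out o) ∧
      ∀ x ∈ rset C out o, C.val out x = true := by
  classical
  rcases o with _ | ⟨v, _ | β⟩
  · change r0 C out = ∅ ∨ ∃ T : Finset (Fin n), n ≤ 3 * T.card ∧ 3 * T.card ≤ 2 * n ∧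
      (∀ x ∈ r0 C out, ∀ y ∈ r0 C out, mxs T x y ∈ r0 C out) ∧
      ∀ x ∈ r0 C out, C.val out x = true
    unfold r0
    split_ifs with h
    · right
      obtain ⟨T, h1, -, h3⟩ := exists_subsuperset_card_eq (subset_univ (C.scope out))
        (n := (n + 2) / 3) (by omega) (by rw [card_univ, Fintype.card_fin]; omega)
      refine ⟨T, by omega, by omega, ?_, fun x hx => (mem_filter.1 hx).2⟩
      intro x hx y _
      rw [mem_filter] at hx ⊢
      refine ⟨mem_univ _, ?_⟩
      rw [← hx.2]
      exact C.dep _ _ _ fun k hk => mxs_mem (h1 hk)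
    · left; rfl
  · change r1 C out v = ∅ ∨ ∃ T : Finset (Fin n), n ≤ 3 * T.card ∧ 3 * T.card ≤ 2 * n ∧
      (∀ x ∈ r1 C out v, ∀ y ∈ r1 C out v, mxs T x y ∈ r1 C out v) ∧
      ∀ x ∈ r1 C out v, C.val out x = true
    unfold r1
    split_ifs with h
    · right
      refine ⟨C.scope v, h.1, h.2, ?_, ?_⟩
      · intro x hx y hy
        rw [mem_filter] at hx hy ⊢
        refine ⟨mem_univ _, ?_, ?_⟩
        · intro z hz
          have := hy.2.1 z hz
          have e : mxs (C.scope v) z (mxs (C.scope v) x y) = mxs (C.scope v) z y := by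
            funext k
            by_cases hk : k ∈ C.scope v
            · rw [mxs_mem hk, mxs_mem hk]
            · rw [mxs_not_mem hk, mxs_not_mem hk, mxs_not_mem hk]
          rwa [e]
        · rw [← hx.2.2]
          exact C.dep _ _ _ fun k hk => mxs_mem hk
      · intro x hx
        rw [mem_filter] at hx
        have := hx.2.1 x hx.2.2
        rwa [mxs_self] at this
    · left; rfl
  · change r2 C out v β = ∅ ∨ ∃ T : Finset (Fin n), n ≤ 3 * T.card ∧ 3 * T.card ≤ 2 * n ∧
      (∀ x ∈ r2 C out v β, ∀ y ∈ r2 C out v β, mxs T x y ∈ r2 C out v β) ∧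
      ∀ x ∈ r2 C out v β, C.val out x = true
    unfold r2
    split_ifs with h
    · right
      obtain ⟨hor, hbig, hsmall⟩ := h
      obtain ⟨-, hsub, himp⟩ := ch_prop C hor β
      obtain ⟨T, h1, h2, h3⟩ := exists_subsuperset_card_eq hsub
        (n := (n + 2) / 3) (by omega) (by omega)
      refine ⟨T, by omega, by omega, ?_, ?_⟩
      · intro x hx y hy
        rw [mem_filter] at hx hy ⊢
        refine ⟨mem_univ _, ?_, ?_⟩
        · intro z hz
          have := hy.2.1 z hz
          have e : mxs (C.scope v) z (mxs T x y) = mxs (C.scope v) z y := by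
            funext k
            by_cases hk : k ∈ C.scope v
            · rw [mxs_mem hk, mxs_mem hk]
            · rw [mxs_not_mem hk, mxs_not_mem hk, mxs_not_mem (fun h => hk (h2 h))]
          rwa [e]
        · rw [← hx.2.2]
          exact C.dep _ _ _ fun k hk => mxs_mem (h1 hk)
      · intro x hx
        rw [mem_filter] at hx
        have := hx.2.1 x (himp x hx.2.2)
        rwa [mxs_self] at this
    · left; rfl

/-- few balanced rectangles -/
theorem cover_bound (hw : 3 * w ≤ n) (hn : 2 ≤ n) (out : Fin s) (Om : Finset (Fin n → Bool))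
    (K : ℝ) (hK0 : 0 ≤ K)
    (hK : ∀ T : Finset (Fin n), n ≤ 3 * T.card → 3 * T.card ≤ 2 * n →
      ∀ S : Finset (Fin n → Bool), (∀ x ∈ S, ∀ y ∈ S, mxs T x y ∈ S) →
        (∀ x ∈ S, C.val out x = true) → ((S ∩ Om).card : ℝ) ≤ K) :
    ((Om.filter fun x => C.val out x = true).card : ℝ) ≤ 4 * s * K := by
  classical
  have hcov : (Om.filter fun x => C.val out x = true) ⊆
      univ.biUnion fun o => rset C out o ∩ Om := by
    intro x hx
    rw [mem_filter] at hx
    rw [mem_biUnion]
    have : ∃ o, x ∈ rset C out o := by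
      by_cases h1 : 3 * (C.scope out).card < n
      · refine ⟨none, ?_⟩
        change x ∈ r0 C out
        unfold r0
        rw [if_pos h1, mem_filter]
        exact ⟨mem_univ _, hx.2⟩
      · have hctx : Ctx C out out x := by
          intro y hy
          rw [← hy]
          exact C.dep _ _ _ fun k hk => mxs_mem hk
        by_cases h2 : 2 * n < 3 * (C.scope out).card
        · exact rset_cover C hw out x out h2 hctx hx.2
        · refine ⟨some (out, none), ?_⟩
          change x ∈ r1 C out out
          unfold r1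
          rw [if_pos ⟨not_lt.1 h1, not_lt.1 h2⟩, mem_filter]
          exact ⟨mem_univ _, hctx, hx.2⟩
    obtain ⟨o, ho⟩ := this
    exact ⟨o, mem_univ _, mem_inter.2 ⟨ho, hx.1⟩⟩
  have hcard : (univ.biUnion fun o => rset C out o ∩ Om).card ≤
      ∑ o : Option (Fin s × Option Bool), (rset C out o ∩ Om).card := card_biUnion_le
  have h1 : ((Om.filter fun x => C.val out x = true).card : ℝ) ≤
      ∑ o : Option (Fin s × Option Bool), ((rset C out o ∩ Om).card : ℝ) := by
    exact_mod_cast (card_le_card hcov).trans hcard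
  have h2 : ∀ o : Option (Fin s × Option Bool), ((rset C out o ∩ Om).card : ℝ) ≤ K := by
    intro o
    rcases rset_rect C hn out o with h | ⟨T, h1, h2, h3, h4⟩
    · rw [h]; simpa using hK0
    · exact hK T h1 h2 _ h3 h4
  have h3 : (Fintype.card (Option (Fin s × Option Bool)) : ℝ) ≤ 4 * s := by
    have hs : 1 ≤ s := by have := out.2; omega
    have : Fintype.card (Option (Fin s × Option Bool)) ≤ 4 * s := by
      simp only [Fintype.card_option, Fintype.card_prod, Fintype.card_fin, Fintype.card_bool]
      omega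
    exact_mod_cast this
  calc _ ≤ _ := h1
    _ ≤ ∑ _o : Option (Fin s × Option Bool), K := sum_le_sum fun o _ => h2 o
    _ = (Fintype.card (Option (Fin s × Option Bool)) : ℝ) * K := by
        rw [sum_const, card_univ, nsmul_eq_mul]
    _ ≤ 4 * s * K := mul_le_mul_of_nonneg_right h3 hK0

end Pool.Agent.Y622.NG
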