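import Mathlib

set_option autoImplicit false

/-!
Definitions used in the statement.
-/

namespace Pool.Agent.Y622.NG

/-- `x` satisfies the CNF formula `φ`, a set of clauses; a clause is a set of literals, and the
literal `(i, b)` is true if `x i = b`. -/
def Sat {n : ℕ} (φ : Finset (Finset (Fin n × Bool))) (x : Fin n → Bool) : Prop :=
  ∀ C ∈ φ, ∃ l ∈ C, x l.1 = l.2

/-- any two clauses clash: some literal of the one is the negation of a literal of the other -/
def Hitting {n : ℕ} (φ : Finset (Finset (Fin n × Bool))) : Prop :=
  ∀ C ∈ φ, ∀ C' ∈ φ, C ≠ C' → ∃ i b, (i, b) ∈ C ∧ (i, !b) ∈ C'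

/-- kinds of the gates of a circuit with `s` gates -/
inductive Gate (s : ℕ) : Type
  | leaf : Gate s
  | and (a b : Fin s) : Gate s
  | or (a b : Fin s) : Gate s

/-- A DNNF with `s` gates over the variables `x i`, `i : Fin n`: gate `i` computes `val i`, and
`scope i` is its set of variables. The leaves compute arbitrary functions of at most `w`
variables (for `w = 1`: constants and literals), the other gates read gates of smaller index,
conjunctions are decomposable (the conjuncts have no variable in common), disjunctions are
unrestricted. -/
structure Dnnf (n s w : ℕ) where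
  kind : Fin s → Gate s
  scope : Fin s → Finset (Fin n)
  val : Fin s → (Fin n → Bool) → Bool
  leaf_ok : ∀ i, kind i = .leaf → (scope i).card ≤ w ∧
    ∀ x y, (∀ k ∈ scope i, x k = y k) → val i x = val i y
  and_ok : ∀ i a b, kind i = .and a b → a < i ∧ b < i ∧ scope i = scope a ∪ scope b ∧
    Disjoint (scope a) (scope b) ∧ ∀ x, val i x = (val a x && val b x)
  or_ok : ∀ i a b, kind i = .or a b → a < i ∧ b < i ∧ scope i = scope a ∪ scope b ∧
    ∀ x, val i x = (val a x || val b x)

end Pool.Agent.Y622.NG
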