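import Mathlib

set_option autoImplicit false

/-!
A Schur type bound for product kernels.
-/

namespace Pool.Agent.Y622.NG

open Finset

/-- Schur test for a symmetric kernel. -/
theorem schur {A : Type*} [Fintype A] (G : A → A → ℝ) (hsym : ∀ a b, G a b = G b a) (κ : ℝ)
    (hrow : ∀ a, ∑ b, |G a b| ≤ κ) (P : A → ℝ) :
    ∑ a, ∑ b, P a * P b * G a b ≤ κ * ∑ a, P a ^ 2 := by
  have h1 : ∀ a b, P a * P b * G a b ≤ (P a ^ 2 * |G a b| + P b ^ 2 * |G b a|) / 2 := by
    intro a b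
    rw [hsym b a]
    have h2 : P a * P b * G a b ≤ |P a * P b| * |G a b| := by
      rw [← abs_mul]; exact le_abs_self _
    have h3 : |P a * P b| ≤ (P a ^ 2 + P b ^ 2) / 2 := by
      rw [abs_le]
      constructor <;> nlinarith [sq_nonneg (P a - P b), sq_nonneg (P a + P b)]
    nlinarith [abs_nonneg (G a b)]
  calc ∑ a, ∑ b, P a * P b * G a b
      ≤ ∑ a, ∑ b, (P a ^ 2 * |G a b| + P b ^ 2 * |G b a|) / 2 :=
        sum_le_sum fun a _ => sum_le_sum fun b _ => h1 a b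
    _ = ((∑ a, ∑ b, P a ^ 2 * |G a b|) + ∑ a, ∑ b, P b ^ 2 * |G b a|) / 2 := by
        simp_rw [← Finset.sum_div, Finset.sum_add_distrib]
    _ = ((∑ a, ∑ b, P a ^ 2 * |G a b|) + ∑ b, ∑ a, P b ^ 2 * |G b a|) / 2 := by
        rw [Finset.sum_comm (f := fun a b => P b ^ 2 * |G b a|)]
    _ = ∑ a, P a ^ 2 * ∑ b, |G a b| := by
        simp_rw [← Finset.mul_sum]; ring
    _ ≤ ∑ a, P a ^ 2 * κ := sum_le_sum fun a _ =>
        mul_le_mul_of_nonneg_left (hrow a) (sq_nonneg _)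
    _ = κ * ∑ a, P a ^ 2 := by rw [← Finset.sum_mul, mul_comm]

/-- A bilinear form whose kernel has small row correlations is small. -/
theorem kernel_bound {A : Type*} [Fintype A] (K : A → A → ℝ) (κ : ℝ)
    (hrow : ∀ b, ∑ c, |∑ a, K a b * K a c| ≤ κ) (P : A → ℝ) :
    (∑ a, ∑ b, P a * P b * K a b) ^ 2 ≤ κ * (∑ a, P a ^ 2) ^ 2 := by
  have e1 : ∑ a, ∑ b, P a * P b * K a b = ∑ a, P a * ∑ b, P b * K a b := by
    refine sum_congr rfl fun a _ => ?_
    rw [mul_sum]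
    exact sum_congr rfl fun b _ => by ring
  have e2 : ∑ a, (∑ b, P b * K a b) ^ 2 = ∑ b, ∑ c, P b * P c * ∑ a, K a b * K a c := by
    have : ∀ a, (∑ b, P b * K a b) ^ 2 = ∑ b, ∑ c, P b * P c * (K a b * K a c) := by
      intro a
      rw [sq, sum_mul_sum]
      exact sum_congr rfl fun b _ => sum_congr rfl fun c _ => by ring
    simp_rw [this]
    rw [sum_comm]
    refine sum_congr rfl fun b _ => ?_
    rw [sum_comm]
    refine sum_congr rfl fun c _ => ?_
    rw [mul_sum]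
  have e3 := schur (fun b c => ∑ a, K a b * K a c)
    (fun b c => sum_congr rfl fun a _ => by ring) κ hrow P
  rw [← e2] at e3
  rw [e1]
  have e4 := Finset.sum_mul_sq_le_sq_mul_sq univ P (fun a => ∑ b, P b * K a b)
  calc _ ≤ _ := e4
    _ ≤ (∑ a, P a ^ 2) * (κ * ∑ a, P a ^ 2) :=
        mul_le_mul_of_nonneg_left e3 (sum_nonneg fun a _ => sq_nonneg _)
    _ = _ := by ring

/-- Row correlations of a product kernel. -/
theorem row_prod {J X : Type*} [Fintype J] [DecidableEq J] [Fintype X] (k : J → X → X → ℝ)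
    (κ : J → ℝ) (h : ∀ j b, ∑ c, |∑ a, k j a b * k j a c| ≤ κ j) (β : J → X) :
    ∑ γ : J → X, |∑ α : J → X, (∏ j, k j (α j) (β j)) * (∏ j, k j (α j) (γ j))| ≤ ∏ j, κ j := by
  have e1 : ∀ γ : J → X, ∑ α : J → X, (∏ j, k j (α j) (β j)) * (∏ j, k j (α j) (γ j)) =
      ∏ j, ∑ a, k j a (β j) * k j a (γ j) := by
    intro γ
    rw [Finset.prod_univ_sum]
    simp only [Fintype.piFinset_univ]
    exact sum_congr rfl fun α _ => by rw [← prod_mul_distrib]
  simp_rw [e1, Finset.abs_prod]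
  have e2 : ∑ γ : J → X, ∏ j, |∑ a, k j a (β j) * k j a (γ j)| =
      ∏ j, ∑ c, |∑ a, k j a (β j) * k j a c| := by
    rw [Finset.prod_univ_sum]
    simp only [Fintype.piFinset_univ]
  rw [e2]
  exact prod_le_prod (fun j _ => sum_nonneg fun c _ => abs_nonneg _) fun j _ => h j (β j)

end Pool.Agent.Y622.NG
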